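import Pool.Agent.Helper70.EC.St

/-!
# EC MODULE STAR: consequences of FewImages
-/

set_option autoImplicit false

namespace Pool.Agent.Helper9.EC

open Finset
open scoped LinearAlgebra.Projectivization
open Pool.Agent.Helper1.PFS (G uu mm cor inf')
open Pool.Agent.Helper70.EC

lemma arith_star {p a b t : ℕ} (hp : 2 ≤ p) (ht : 1 ≤ t)
    (ha : a ^ 3 ≤ (4 * p - 2) * t * (p * (p ^ 2 - 1)) ^ 2) (hb : b ≤ (p - 1) * p) :
    (a + b) ^ 3 ≤ 18 * p * t * (p * (p ^ 2 - 1)) ^ 2 := by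
  obtain ⟨q, rfl⟩ : ∃ q, p = q + 1 := ⟨p - 1, by omega⟩
  have e1 : 4 * (q + 1) - 2 = 4 * q + 2 := by omega
  have e2 : (q + 1) ^ 2 - 1 = q * (q + 2) := by
    have : (q + 1) ^ 2 = q * (q + 2) + 1 := by ring
    omega
  have e3 : q + 1 - 1 = q := by omega
  rw [e1, e2] at ha
  rw [e3] at hb
  rw [e2]
  set n2 : ℕ := ((q + 1) * (q * (q + 2))) ^ 2 with hn2
  have hb3 : b ^ 3 ≤ n2 := by
    calc b ^ 3 ≤ (q * (q + 1)) ^ 3 := Nat.pow_le_pow_left hb 3
      _ = (q * (q + 1)) ^ 2 * (q * (q + 1)) := by ring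
      _ ≤ (q * (q + 1)) ^ 2 * (q + 2) ^ 2 := by
          refine Nat.mul_le_mul_left _ ?_
          nlinarith
      _ = n2 := by rw [hn2]; ring
  have hab : (a + b) ^ 3 ≤ 4 * (a ^ 3 + b ^ 3) := by
    have hz : (a + b : ℤ) ^ 3 ≤ 4 * ((a : ℤ) ^ 3 + (b : ℤ) ^ 3) := by
      have h0 : (0 : ℤ) ≤ (a : ℤ) + b := by positivity
      nlinarith [mul_nonneg h0 (sq_nonneg ((a : ℤ) - b))]
    exact_mod_cast hz
  have h1 : n2 ≤ t * n2 := Nat.le_mul_of_pos_left _ ht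
  calc (a + b) ^ 3 ≤ 4 * (a ^ 3 + b ^ 3) := hab
    _ ≤ 4 * ((4 * q + 2) * t * n2 + t * n2) :=
        Nat.mul_le_mul_left _ (Nat.add_le_add ha (hb3.trans h1))
    _ = (16 * q + 12) * (t * n2) := by ring
    _ ≤ (18 * (q + 1)) * (t * n2) := Nat.mul_le_mul_right _ (by omega)
    _ = 18 * (q + 1) * t * n2 := by ring

lemma stab_card (hBP : StBP) (p : ℕ) [Fact p.Prime] (v : Pt p) :
    {g : G p | g • v = v}.ncard ≤ (p - 1) * p := by
  classical
  obtain ⟨h1, -⟩ := hBP p v v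
  have e : {g : G p | g • v = v} =
      (fun q : (ZMod p)ˣ × ZMod p => bp v v q.1 q.2) '' Set.univ := by
    ext g
    rw [Set.mem_setOf_eq, h1 g]
    constructor
    · rintro ⟨c, s, rfl⟩
      exact ⟨(c, s), Set.mem_univ _, rfl⟩
    · rintro ⟨q, -, rfl⟩
      exact ⟨q.1, q.2, rfl⟩
  rw [e]
  refine (Set.ncard_image_le (Set.toFinite _)).trans ?_
  rw [Set.ncard_univ, Nat.card_eq_fintype_card, Fintype.card_prod, ZMod.card,
    ZMod.card_units_eq_totient, Nat.totient_prime (Fact.out : p.Prime)]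

lemma first (hBP : StBP) (p : ℕ) [Fact p.Prime] (S : Set (G p)) (hS : PF S) (v : Pt p)
    (Θ : Set (Pt p)) :
    {g | g ∈ S ∧ g • v ∈ Θ}.ncard ^ 3 ≤ 18 * p * Θ.ncard * (p * (p ^ 2 - 1)) ^ 2 := by
  classical
  have hfin : Finite (Pt p) := by
    have : Function.Surjective (fun v : {v : Fin 2 → ZMod p // v ≠ 0} =>
        Projectivization.mk (ZMod p) v.1 v.2) := by
      intro x
      induction x using Projectivization.ind with
      | h v hv => exact ⟨⟨v, hv⟩, rfl⟩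
    exact Finite.of_surjective _ this
  have hp : 2 ≤ p := (Fact.out : p.Prime).two_le
  have key : {g | g ∈ S ∧ g • v ∈ Θ \ {v}}.ncard ^ 3 ≤
      (4 * p - 2) * (Θ \ {v}).ncard * (p * (p ^ 2 - 1)) ^ 2 :=
    Pool.Agent.Helper1.PFS.final p S hS v (Θ \ {v}) (by simp)
  have hle : (Θ \ {v}).ncard ≤ Θ.ncard := Set.ncard_le_ncard Set.diff_subset (Set.toFinite Θ)
  have key2 : {g | g ∈ S ∧ g • v ∈ Θ \ {v}}.ncard ^ 3 ≤
      (4 * p - 2) * Θ.ncard * (p * (p ^ 2 - 1)) ^ 2 :=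
    key.trans (Nat.mul_le_mul_right _ (Nat.mul_le_mul_left _ hle))
  by_cases hv : v ∈ Θ
  · have ht : 1 ≤ Θ.ncard := by
      rw [Nat.one_le_iff_ne_zero, Ne, Set.ncard_eq_zero (Set.toFinite Θ)]
      exact (Set.nonempty_of_mem hv).ne_empty
    have hsub : {g | g ∈ S ∧ g • v ∈ Θ} ⊆
        {g | g ∈ S ∧ g • v ∈ Θ \ {v}} ∪ {g : G p | g • v = v} := by
      intro g hg
      by_cases h : g • v = v
      · exact Or.inr h
      · exact Or.inl ⟨hg.1, hg.2, h⟩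
    have hc : {g | g ∈ S ∧ g • v ∈ Θ}.ncard ≤
        {g | g ∈ S ∧ g • v ∈ Θ \ {v}}.ncard + {g : G p | g • v = v}.ncard :=
      (Set.ncard_le_ncard hsub (Set.toFinite _)).trans (Set.ncard_union_le _ _)
    exact (Nat.pow_le_pow_left hc 3).trans
      (arith_star hp ht key2 (stab_card hBP p v))
  · have e : Θ \ {v} = Θ := Set.diff_singleton_eq_self hv
    rw [e] at key2
    refine key2.trans (Nat.mul_le_mul_right _ (Nat.mul_le_mul_right _ ?_))
    omega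

/-- STAR. -/
theorem hSTAR (hBP : StBP) : StSTAR := by
  intro p hp S hS v Θ
  refine ⟨first hBP p S hS v Θ, ?_⟩
  have hS' : PF {g : G p | g⁻¹ ∈ S} := by
    intro x hx y hy hxy
    have h1 : (x * y)⁻¹ ∈ S := hxy
    rw [mul_inv_rev] at h1
    exact hS _ hy _ hx h1
  have h := first hBP p _ hS' v Θ
  refine le_trans (Nat.pow_le_pow_left (le_of_eq ?_) 3) h
  rw [← Set.ncard_image_of_injective {g | g ∈ S ∧ g⁻¹ • v ∈ Θ} (inv_injective (G := G p))]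
  congr 1
  ext g
  constructor
  · rintro ⟨x, hx, rfl⟩
    refine ⟨?_, hx.2⟩
    change x⁻¹⁻¹ ∈ S
    rw [inv_inv]
    exact hx.1
  · rintro ⟨h1, h2⟩
    refine ⟨g⁻¹, ⟨h1, ?_⟩, inv_inv g⟩
    rw [inv_inv]
    exact h2

end Pool.Agent.Helper9.EC
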